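import Pool.Agent.RegJ.Core

open Filter Topology Complex MeasureTheory Set Metric Matrix
open scoped Real ENNReal NNReal ComplexOrder

namespace Pool.Agent.H37RJ

open Pool.Agent.RegJ



variable {m n : Type*} [Fintype m] [DecidableEq m] [Fintype n] [DecidableEq n]

lemma nsq_eq_norm {ι : Type*} [Fintype ι] (x : ι → ℂ) :
    nsq x = ‖(WithLp.toLp 2 x : EuclideanSpace ℂ ι)‖ ^ 2 := by
  rw [EuclideanSpace.norm_sq_eq]
  rfl

lemma continuous_nsq {ι : Type*} [Fintype ι] : Continuous (nsq : (ι → ℂ) → ℝ) := by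
  unfold nsq
  fun_prop

/-- A matrix function which is holomorphic on a neighbourhood of the closed disc and strictly
contractive on the circle has supremum norm less than one on the disc. -/
theorem strict_of_circle {U : Set ℂ} (hU : IsOpen U) (hsub : closedBall (0 : ℂ) 1 ⊆ U)
    {g : ℂ → Matrix n m ℂ} (hg : ∀ i k, DifferentiableOn ℂ (fun z => g z i k) U)
    (h : ∀ ζ : ℂ, ‖ζ‖ = 1 → ∀ x : m → ℂ, x ≠ 0 → nsq (g ζ *ᵥ x) < nsq x) :
    ∃ ρ : ℝ, 0 ≤ ρ ∧ ρ < 1 ∧ ∀ z ∈ disc, ∀ x : m → ℂ, nsq (g z *ᵥ x) ≤ ρ ^ 2 * nsq x := by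
  classical
  have hgc : ContinuousOn (fun p : ℂ × (m → ℂ) => nsq (g p.1 *ᵥ p.2))
      (sphere (0 : ℂ) 1 ×ˢ {x : m → ℂ | nsq x = 1}) := by
    refine continuous_nsq.comp_continuousOn ?_
    refine continuousOn_pi.2 fun i => ?_
    have h1 : ∀ k, ContinuousOn (fun p : ℂ × (m → ℂ) => g p.1 i k * p.2 k)
        (sphere (0 : ℂ) 1 ×ˢ {x : m → ℂ | nsq x = 1}) := by
      intro k
      refine ContinuousOn.mul ?_ (by fun_prop)
      refine (hg i k).continuousOn.comp continuousOn_fst ?_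
      intro p hp
      exact hsub (sphere_subset_closedBall hp.1)
    exact continuousOn_finsetSum _ fun k _ => h1 k
  have hKc : IsCompact (sphere (0 : ℂ) 1 ×ˢ {x : m → ℂ | nsq x = 1}) := by
    refine (isCompact_sphere 0 1).prod ?_
    refine Metric.isCompact_of_isClosed_isBounded
      (isClosed_eq continuous_nsq continuous_const) ?_
    refine (isBounded_closedBall (x := (0 : m → ℂ)) (r := 1)).subset ?_
    intro x hx
    rw [mem_closedBall, dist_zero_right, pi_norm_le_iff_of_nonneg zero_le_one]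
    intro i
    have h1 := norm_sq_le_nsq x i
    have hx' : nsq x = 1 := hx
    rw [hx'] at h1
    nlinarith [norm_nonneg (x i)]
  -- the maximum
  obtain ⟨M, hM0, hM1, hM⟩ : ∃ M : ℝ, 0 ≤ M ∧ M < 1 ∧ ∀ ζ : ℂ, ‖ζ‖ = 1 → ∀ x : m → ℂ,
      nsq x = 1 → nsq (g ζ *ᵥ x) ≤ M := by
    rcases (sphere (0 : ℂ) 1 ×ˢ {x : m → ℂ | nsq x = 1}).eq_empty_or_nonempty with he | hne
    · refine ⟨0, le_rfl, zero_lt_one, fun ζ hζ x hx => ?_⟩
      exfalso
      have : (ζ, x) ∈ sphere (0 : ℂ) 1 ×ˢ {x : m → ℂ | nsq x = 1} :=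
        Set.mem_prod.2 ⟨mem_sphere_zero_iff_norm.2 hζ, hx⟩
      rw [he] at this
      exact this
    · obtain ⟨p, hp, hmax⟩ := hKc.exists_isMaxOn hne hgc
      refine ⟨nsq (g p.1 *ᵥ p.2), nsq_nonneg _, ?_, fun ζ hζ x hx => ?_⟩
      · have hp2 : nsq p.2 = 1 := (Set.mem_prod.1 hp).2
        rw [← hp2]
        refine h p.1 (mem_sphere_zero_iff_norm.1 (Set.mem_prod.1 hp).1) p.2 ?_
        intro h0
        rw [h0] at hp2
        simp [nsq] at hp2
      · have hmem : (ζ, x) ∈ sphere (0 : ℂ) 1 ×ˢ {x : m → ℂ | nsq x = 1} :=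
          Set.mem_prod.2 ⟨mem_sphere_zero_iff_norm.2 hζ, hx⟩
        exact isMaxOn_iff.1 hmax (ζ, x) hmem
  have hM' : ∀ ζ : ℂ, ‖ζ‖ = 1 → ∀ x : m → ℂ, nsq (g ζ *ᵥ x) ≤ M * nsq x := by
    intro ζ hζ x
    rcases eq_or_ne x 0 with rfl | hx
    · simp [nsq]
    · have hpos : 0 < nsq x := lt_of_le_of_ne (nsq_nonneg x) fun h0 => hx (nsq_eq_zero h0.symm)
      have hs : 0 < Real.sqrt (nsq x) := Real.sqrt_pos.2 hpos
      have hsq : Real.sqrt (nsq x) ^ 2 = nsq x := Real.sq_sqrt hpos.le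
      have hc : ‖(((Real.sqrt (nsq x))⁻¹ : ℝ) : ℂ)‖ ^ 2 = (nsq x)⁻¹ := by
        rw [Complex.norm_real, Real.norm_eq_abs, sq_abs, inv_pow, hsq]
      have h1 := hM ζ hζ ((((Real.sqrt (nsq x))⁻¹ : ℝ) : ℂ) • x) (by
        rw [nsq_smul, hc, inv_mul_cancel₀ hpos.ne'])
      rw [mulVec_smul, nsq_smul, hc, inv_mul_le_iff₀ hpos, mul_comm] at h1
      exact h1
  refine ⟨Real.sqrt M, Real.sqrt_nonneg _, ?_, fun z hz x => ?_⟩
  · rw [Real.sqrt_lt' zero_lt_one, one_pow]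
    exact hM1
  · rw [Real.sq_sqrt hM0]
    set f : ℂ → EuclideanSpace ℂ n := fun w => WithLp.toLp 2 (g w *ᵥ x) with hf
    have hfd : DifferentiableOn ℂ f U := by
      rw [differentiableOn_euclidean]
      intro i
      change DifferentiableOn ℂ (fun w => ∑ k, g w i k * x k) U
      exact DifferentiableOn.fun_sum fun k _ => (hg i k).mul_const _
    have hdc : DiffContOnCl ℂ f (ball 0 1) := by
      refine DifferentiableOn.diffContOnCl ?_
      rw [closure_ball _ one_ne_zero]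
      exact hfd.mono hsub
    have hfr : ∀ w ∈ frontier (ball (0 : ℂ) 1), ‖f w‖ ≤ Real.sqrt (M * nsq x) := by
      intro w hw
      rw [frontier_ball _ one_ne_zero, mem_sphere_zero_iff_norm] at hw
      refine Real.le_sqrt_of_sq_le ?_
      rw [← nsq_eq_norm]
      exact hM' w hw x
    have h1 := Complex.norm_le_of_forall_mem_frontier_norm_le isBounded_ball hdc hfr
      (subset_closure hz)
    have h2 : nsq (g z *ᵥ x) = ‖f z‖ ^ 2 := nsq_eq_norm _
    rw [h2]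
    calc ‖f z‖ ^ 2 ≤ Real.sqrt (M * nsq x) ^ 2 := by gcongr
      _ = M * nsq x := Real.sq_sqrt (mul_nonneg hM0 (nsq_nonneg x))

end Pool.Agent.H37RJ
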